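import Pool.Agent.Helper41.FX.StK2

set_option autoImplicit false

namespace Pool.Agent.Helper34.FX

open Polynomial
open Pool.Agent.Helper41.FX Pool.Agent.Helper72.FX

section gen

variable {A : Type} [CommRing A]

private lemma ck_fin (x : A) (M : Type) [AddCommGroup M] [Module A M] (h : Module.Finite A M) :
    Module.Finite A (Ck x M) := inferInstance

private lemma kn_fin [IsNoetherianRing A] (x : A) (M : Type) [AddCommGroup M] [Module A M]
    (h : Module.Finite A M) : Module.Finite A (Kn x M) := by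
  have : IsNoetherian A M := isNoetherian_of_isNoetherianRing_of_finite A M
  infer_instance

private lemma ck_kill (x : A) (M : Type) [AddCommGroup M] [Module A M] (y : Ck x M) :
    x • y = 0 := by
  obtain ⟨z, rfl⟩ := Submodule.mkQ_surjective _ y
  rw [← map_smul, Submodule.mkQ_apply, Submodule.Quotient.mk_eq_zero]
  exact ⟨z, rfl⟩

private lemma kn_kill (x : A) (M : Type) [AddCommGroup M] [Module A M] (y : Kn x M) :
    x • y = 0 := Subtype.ext (by
  have := y.2
  rw [LinearMap.mem_ker] at this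
  exact this)

private lemma ck_all (D x : A) (M : Type) [AddCommGroup M] [Module A M]
    (h : ∀ y : M, D • y = 0) (y : Ck x M) : D • y = 0 := by
  obtain ⟨z, rfl⟩ := Submodule.mkQ_surjective _ y
  rw [← map_smul, h, map_zero]

private lemma kn_all (D x : A) (M : Type) [AddCommGroup M] [Module A M]
    (h : ∀ y : M, D • y = 0) (y : Kn x M) : D • y = 0 := Subtype.ext (h y.1)

private lemma ck_kil (I : Ideal A) (x : A) (M : Type) [AddCommGroup M] [Module A M]
    (h : kil I M) : kil (I ⊔ Ideal.span {x}) (Ck x M) :=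
  kil_sup ((gd_kil I).surj M (Ck x M) (Submodule.mkQ _) (Submodule.mkQ_surjective _) h)
    (kil_span (ck_kill x M))

private lemma kn_kil (I : Ideal A) (x : A) (M : Type) [AddCommGroup M] [Module A M]
    (h : kil I M) : kil (I ⊔ Ideal.span {x}) (Kn x M) :=
  kil_sup ((gd_kil I).inj (Kn x M) M (Submodule.subtype _) (Submodule.injective_subtype _) h)
    (kil_span (kn_kill x M))

private lemma gen3 [IsNoetherianRing A] (hSNK : StSNK) (hDQ : StDQ) (hCKQ : StCKQ) (I : Ideal A)
    (x r D : A) (Λ : Type) [AddCommGroup Λ] (χ : AF A (kil (I ⊔ Ideal.span {x})) Λ)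
    (h0 : χ.f (A ⧸ (I ⊔ Ideal.span {x})) = 0)
    (hD : ∀ (N : Type) [AddCommGroup N] [Module A N], Module.Finite A N →
      kil (I ⊔ Ideal.span {x}) N → (∀ y : N, D • y = 0) → χ.f N = 0)
    (hr : ∀ (N : Type) [AddCommGroup N] [Module A N], Module.Finite A N → kil I N →
      (∀ y : N, r • y = 0) → χ.f (Ck x N) = χ.f (Kn x N))
    (hnz : ∀ u : A, x * u ∈ I → u ∈ I) (hZ : ZZ A I (r * D)) :
    ∀ (N : Type) [AddCommGroup N] [Module A N], Module.Finite A N → kil I N →
      χ.f (Ck x N) = χ.f (Kn x N) := by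
  obtain ⟨ψ, hψ⟩ := hDQ hSNK A I x Λ χ
  have key := hZ Λ ψ ?_ ?_
  · intro N _ _ hf hN
    have := key N hf hN
    rw [hψ, sub_eq_zero] at this
    exact this
  · intro N _ _ hf hN hk
    have hnoe : IsNoetherian A N := isNoetherian_of_isNoetherianRing_of_finite A N
    rw [AF.quot ψ (LinearMap.range (LinearMap.lsmul A N r)) hf hN, hψ, hψ]
    have hSf : Module.Finite A (LinearMap.range (LinearMap.lsmul A N r)) := inferInstance
    have hSD : ∀ y : LinearMap.range (LinearMap.lsmul A N r), D • y = 0 := by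
      rintro ⟨y, z, rfl⟩
      apply Subtype.ext
      change D • (r • z) = 0
      rw [smul_smul, mul_comm]
      exact hk z
    have hSI : kil I (LinearMap.range (LinearMap.lsmul A N r)) :=
      (gd_kil I).inj _ N (Submodule.subtype _) (Submodule.injective_subtype _) hN
    have hQI : kil I (N ⧸ LinearMap.range (LinearMap.lsmul A N r)) :=
      (gd_kil I).surj N _ (Submodule.mkQ _) (Submodule.mkQ_surjective _) hN
    rw [hD (Ck x (LinearMap.range (LinearMap.lsmul A N r))) (ck_fin x _ hSf) (ck_kil I x _ hSI)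
        (ck_all D x _ hSD),
      hD (Kn x (LinearMap.range (LinearMap.lsmul A N r))) (kn_fin x _ hSf) (kn_kil I x _ hSI)
        (kn_all D x _ hSD),
      hr (N ⧸ LinearMap.range (LinearMap.lsmul A N r)) inferInstance hQI (ck_kill r N)]
    simp
  · rw [hψ]
    obtain ⟨⟨e⟩, hs⟩ := hCKQ A I x
    have hsub := hs hnz
    rw [AF.equiv χ (gd_kil _) e inferInstance (kil_quot _), h0,
      AF.of_subsingleton χ (gd_kil _) (Kn x (A ⧸ I)), sub_zero]

end gen

private lemma idl3 (u v w : P0) : Ideal.span {u, v, w} = Ideal.span {u, v} ⊔ Ideal.span {w} := by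
  rw [← Ideal.span_union]
  congr 1
  ext z
  simp only [Set.mem_insert_iff, Set.mem_singleton_iff, Set.mem_union]
  tauto

theorem hC3 : StSNK → StDQ → StCKQ → StF2 → StZB → StC3A → StC3 := by
  intro hSNK hDQ hCKQ hF2 hZB hC3A χ h0 hD
  have hr := hC3A χ hD
  have hZ : ZZ P0 (Ideal.span {e1, e2}) (v10 3 * pD) := hZB
  have hn : ∀ r : P0, ss * r ∈ Ideal.span {e1, e2} → r ∈ Ideal.span {e1, e2} := hF2
  clear hC3A hZB hF2
  revert χ
  rw [idl3]
  intro χ h0 hD hr
  exact gen3 hSNK hDQ hCKQ (Ideal.span {e1, e2}) ss (v10 3) pD (ZMod 2) χ h0 hD hr hn hZ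

end Pool.Agent.Helper34.FX
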