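import Pool.Agent.Helper41.FX.StK2

set_option autoImplicit false

namespace Pool.Agent.Helper34.FX

open Polynomial
open Pool.Agent.Helper41.FX Pool.Agent.Helper72.FX

private lemma pmap_lsmul {A : Type} [CommRing A] (s : A) (N : Type) [AddCommGroup N]
    [Module A N] :
    pmap (LinearMap.lsmul A N s) = LinearMap.lsmul A[X] (PolynomialModule A N) (C s) := by
  refine LinearMap.ext (fun g => ?_)
  apply PolynomialModule.coeff_injective
  refine Finsupp.ext (fun n => ?_)
  rw [pmap_coeff]
  change s • g.coeff n = ((C s : A[X]) • g).coeff n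
  rw [← monomial_zero_left, PolynomialModule.monomial_smul_apply]
  simp

theorem hCKP : StPMX → StCKP := by
  intro hP A _ s N _ _
  constructor
  · -- the cokernel
    obtain ⟨-, -, hex, -⟩ := hP A N N (Ck s N) (LinearMap.lsmul A N s)
      (LinearMap.range (LinearMap.lsmul A N s)).mkQ
    have hsur := (hP A N (Ck s N) (Ck s N) (LinearMap.range (LinearMap.lsmul A N s)).mkQ
      0).2.1 (Submodule.mkQ_surjective _)
    have hE := hex (LinearMap.exact_map_mkQ_range _)
    rw [pmap_lsmul] at hE
    have hk : LinearMap.range (LinearMap.lsmul A[X] (PolynomialModule A N) (C s)) =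
        LinearMap.ker (pmap (LinearMap.range (LinearMap.lsmul A N s)).mkQ) :=
      (LinearMap.exact_iff.1 hE).symm
    exact ⟨(Submodule.quotEquivOfEq _ _ hk).trans
      (LinearMap.quotKerEquivOfSurjective _ hsur)⟩
  · -- the kernel
    have hinj := (hP A (Kn s N) N N (LinearMap.ker (LinearMap.lsmul A N s)).subtype
      (LinearMap.lsmul A N s)).1 (Submodule.injective_subtype _)
    have hex := (hP A (Kn s N) N N (LinearMap.ker (LinearMap.lsmul A N s)).subtype
      (LinearMap.lsmul A N s)).2.2.1
    have hE := hex (LinearMap.exact_subtype_ker_map _)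
    rw [pmap_lsmul] at hE
    have hk : LinearMap.ker (LinearMap.lsmul A[X] (PolynomialModule A N) (C s)) =
        LinearMap.range (pmap (LinearMap.ker (LinearMap.lsmul A N s)).subtype) :=
      LinearMap.exact_iff.1 hE
    exact ⟨(LinearEquiv.ofEq _ _ hk).trans (LinearEquiv.ofInjective _ hinj).symm⟩

end Pool.Agent.Helper34.FX
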