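import Pool.Agent.Helper87.FX.StD

set_option autoImplicit false

namespace Pool.Agent.Helper34.FX

open Set Topology Metric Filter
open scoped ContDiff
open Pool.Agent.Helper87.FX
open Pool.Agent.Helper72.FX (SmZ YY WCon TgtS)

section fin

variable {n : ℕ}

private lemma uc_co (y : AV n) : uc (co y) = y := by
  obtain ⟨u, v, z⟩ := y
  simp [uc, co]

private lemma co_uc (x : Fin 2 ⊕ Fin n → ℂ) : co (uc x) = x := by
  funext i
  rcases i with i | i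
  · fin_cases i <;> simp [uc, co]
  · simp [uc, co]

private lemma co_mem (F : MvPolynomial (Fin n) ℂ) (y : AV n) : y ∈ YC F ↔ co y ∈ YY F := by
  simp only [YC, YY, Pq, mem_setOf_eq, co, Sum.elim_inl, Sum.elim_inr, sub_eq_zero]
  simp

private lemma co_smooth : ContDiff ℝ ∞ (co : AV n → (Fin 2 ⊕ Fin n → ℂ)) := by
  rw [contDiff_pi]
  intro i
  rcases i with i | i
  · fin_cases i
    · simp only [co, Sum.elim_inl]
      exact contDiff_fst
    · simp only [co, Sum.elim_inl]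
      exact contDiff_fst.comp contDiff_snd
  · simp only [co, Sum.elim_inr]
    exact (contDiff_apply ℝ ℂ i).comp (contDiff_snd.comp contDiff_snd)

private lemma uc_smooth : ContDiff ℝ ∞ (uc : (Fin 2 ⊕ Fin n → ℂ) → AV n) := by
  unfold uc
  refine (contDiff_apply ℝ ℂ _).prodMk ((contDiff_apply ℝ ℂ _).prodMk ?_)
  rw [contDiff_pi]
  intro j
  exact contDiff_apply ℝ ℂ _

/-- the map on the pairs of points -/
private def Ps (q : AV n × AV n) : (Fin 2 ⊕ Fin n) ⊕ (Fin 2 ⊕ Fin n) → ℂ :=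
  Sum.elim (co q.1) (co q.2)

private def Ph (x : (Fin 2 ⊕ Fin n) ⊕ (Fin 2 ⊕ Fin n) → ℂ) : AV n × AV n :=
  (uc (fun i => x (Sum.inl i)), uc (fun i => x (Sum.inr i)))

private lemma Ps_smooth : ContDiff ℝ ∞ (Ps : AV n × AV n → _) := by
  rw [contDiff_pi]
  intro i
  rcases i with i | i
  · exact (contDiff_apply ℝ ℂ i).comp (co_smooth.comp contDiff_fst)
  · exact (contDiff_apply ℝ ℂ i).comp (co_smooth.comp contDiff_snd)

private lemma Ph_smooth :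
    ContDiff ℝ ∞ (Ph : ((Fin 2 ⊕ Fin n) ⊕ (Fin 2 ⊕ Fin n) → ℂ) → AV n × AV n) := by
  refine ContDiff.prodMk (uc_smooth.comp ?_) (uc_smooth.comp ?_)
  · rw [contDiff_pi]
    intro i
    exact contDiff_apply ℝ ℂ _
  · rw [contDiff_pi]
    intro i
    exact contDiff_apply ℝ ℂ _

private lemma Ph_Ps (q : AV n × AV n) : Ph (Ps q) = q := by
  obtain ⟨a, b⟩ := q
  simp only [Ph, Ps, Sum.elim_inl, Sum.elim_inr]
  exact Prod.ext (uc_co a) (uc_co b)

private lemma Ps_Ph (x : (Fin 2 ⊕ Fin n) ⊕ (Fin 2 ⊕ Fin n) → ℂ) : Ps (Ph x) = x := by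
  funext i
  rcases i with i | i
  · simp only [Ph, Ps, Sum.elim_inl]
    rw [co_uc]
  · simp only [Ph, Ps, Sum.elim_inr]
    rw [co_uc]

private lemma Ps_mem (F : MvPolynomial (Fin n) ℂ) (q : AV n × AV n) :
    q ∈ YC F ×ˢ (univ : Set (AV n)) ↔ Ps q ∈ {x : (Fin 2 ⊕ Fin n) ⊕ (Fin 2 ⊕ Fin n) → ℂ |
      (fun i => x (Sum.inl i)) ∈ YY F} := by
  simp only [mem_prod, mem_univ, and_true, mem_setOf_eq, Ps, Sum.elim_inl]
  exact co_mem F q.1

private lemma exi (n : ℕ) :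
    Nonempty ((Fin (2 * n + 3) → ℂ) ≃L[ℝ] ((ℂ × (Fin n → ℂ)) × AV n)) := by
  refine ⟨ContinuousLinearEquiv.ofFinrankEq ?_⟩
  simp only [AV, Module.finrank_prod, Module.finrank_pi_fintype, Complex.finrank_real_complex,
    Finset.sum_const, Finset.card_univ, Fintype.card_fin, smul_eq_mul]
  ring

end fin

theorem hFIN : StSUS → StBRG → StPRE → StAMB → StFIN := by
  intro hSUS hBRG hPRE hAMB n F hn hF hz hW
  have hSmt : Smt F := ⟨hF, by
    obtain ⟨z, hz⟩ := hz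
    exact ⟨z, hF z hz⟩⟩
  obtain ⟨g₀, hg₀, hr₀⟩ := hSUS n F hSmt (hBRG n F hW)
  obtain ⟨ι⟩ := exi n
  obtain ⟨h1, h2⟩ := hPRE _ _ _ _ g₀ ι hg₀
  have h3 := hAMB _ _ _ _ {x : (Fin 2 ⊕ Fin n) ⊕ (Fin 2 ⊕ Fin n) → ℂ |
      (fun i => x (Sum.inl i)) ∈ YY F} _ Ps Ph Ps_smooth Ph_smooth Ph_Ps Ps_Ph (Ps_mem F) h1
  refine ⟨fun x => Ps (g₀ (ι x)), h3.sm, h3.imm, h3.emb, ?_⟩
  refine Subset.antisymm h3.sub ?_
  intro x hx
  have h4 : Ph x ∈ YC F ×ˢ (univ : Set (AV n)) := by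
    rw [Ps_mem, Ps_Ph]
    exact hx
  rw [← hr₀, ← h2] at h4
  obtain ⟨y, hy⟩ := h4
  refine ⟨y, ?_⟩
  have hy' : g₀ (ι y) = Ph x := hy
  show Ps (g₀ (ι y)) = x
  rw [hy', Ps_Ph]

end Pool.Agent.Helper34.FX
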