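import Pool.Agent.Helper65.FX.St

set_option autoImplicit false

namespace Pool.Agent.Helper34.FX

open Set Topology Metric Filter
open scoped ContDiff
open Pool.Agent.Helper65.FX
open Pool.Agent.Helper87.FX

section loc

variable {V : Type} [NormedAddCommGroup V] [NormedSpace ℝ V]

private lemma spn_mono {G F : Set (ℂ → V → V)} (h : G ⊆ F) (y : V) : spn G y ≤ spn F y :=
  Submodule.span_mono (biUnion_subset_biUnion_left h)

private lemma finA (F : Set (ℂ → V → V)) (y v : V) (hv : v ∈ spn F y) :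
    ∃ G : Set (ℂ → V → V), G ⊆ F ∧ G.Finite ∧ v ∈ spn G y := by
  unfold spn at hv
  induction hv using Submodule.span_induction with
  | mem x hx =>
    simp only [mem_iUnion] at hx
    obtain ⟨e, he, hx⟩ := hx
    refine ⟨{e}, singleton_subset_iff.2 he, finite_singleton e, Submodule.subset_span ?_⟩
    simp only [mem_iUnion]
    exact ⟨e, mem_singleton e, hx⟩
  | zero => exact ⟨∅, empty_subset _, finite_empty, Submodule.zero_mem _⟩
  | add a b _ _ iha ihb =>
    obtain ⟨G, hG, hf, ha⟩ := iha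
    obtain ⟨G', hG', hf', hb⟩ := ihb
    exact ⟨G ∪ G', union_subset hG hG', hf.union hf', Submodule.add_mem _
      (spn_mono subset_union_left y ha) (spn_mono subset_union_right y hb)⟩
  | smul r a _ iha =>
    obtain ⟨G, hG, hf, ha⟩ := iha
    exact ⟨G, hG, hf, Submodule.smul_mem _ r ha⟩

private lemma finB (F : Set (ℂ → V → V)) (y : V) (K : Submodule ℝ V) (hK : K.FG) :
    K ≤ spn F y → ∃ G : Set (ℂ → V → V), G ⊆ F ∧ G.Finite ∧ K ≤ spn G y := by
  refine Submodule.fg_induction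
    (motive := fun N _ => N ≤ spn F y → ∃ G : Set (ℂ → V → V), G ⊆ F ∧ G.Finite ∧ N ≤ spn G y) ?_ ?_ K hK
  · intro x hx
    obtain ⟨G, hG, hf, hm⟩ := finA F y x (hx (Submodule.mem_span_singleton_self x))
    exact ⟨G, hG, hf, (Submodule.span_singleton_le_iff_mem _ _).2 hm⟩
  · intro M₁ M₂ _ _ h1 h2 h
    obtain ⟨G, hG, hf, hm⟩ := h1 (le_sup_left.trans h)
    obtain ⟨G', hG', hf', hm'⟩ := h2 (le_sup_right.trans h)
    exact ⟨G ∪ G', union_subset hG hG', hf.union hf', sup_le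
      (hm.trans (spn_mono subset_union_left y)) (hm'.trans (spn_mono subset_union_right y))⟩

end loc

private lemma rinv {E F : Type} [NormedAddCommGroup E] [NormedSpace ℝ E] [NormedAddCommGroup F]
    [NormedSpace ℝ F] [FiniteDimensional ℝ F] (f : E →L[ℝ] F) (hf : Function.Surjective f) :
    ∃ g : F →L[ℝ] E, ∀ x, f (g x) = x := by
  obtain ⟨g, hg⟩ := LinearMap.exists_rightInverse_of_surjective (f : E →ₗ[ℝ] F)
    (LinearMap.range_eq_top.2 hf)
  refine ⟨LinearMap.toContinuousLinearMap g, fun x => ?_⟩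
  exact LinearMap.congr_fun hg x

private lemma near_inv {T E : Type} [TopologicalSpace T] [NormedAddCommGroup E] [NormedSpace ℝ E]
    [FiniteDimensional ℝ E] (C : T → E →L[ℝ] E) (t₀ : T) (hC : ContinuousAt C t₀)
    (h0 : C t₀ = ContinuousLinearMap.id ℝ E) : ∀ᶠ t in 𝓝 t₀, Function.Bijective (C t) := by
  have hn : range ((↑) : (E ≃L[ℝ] E) → E →L[ℝ] E) ∈
      𝓝 ((ContinuousLinearEquiv.refl ℝ E : E ≃L[ℝ] E) : E →L[ℝ] E) :=
    ContinuousLinearEquiv.nhds (ContinuousLinearEquiv.refl ℝ E)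
  have h1 : C t₀ = ((ContinuousLinearEquiv.refl ℝ E : E ≃L[ℝ] E) : E →L[ℝ] E) := by
    rw [h0]; rfl
  have h2 : Tendsto C (𝓝 t₀) (𝓝 ((ContinuousLinearEquiv.refl ℝ E : E ≃L[ℝ] E) : E →L[ℝ] E)) := by
    rw [← h1]; exact hC
  filter_upwards [h2 hn] with t ht
  obtain ⟨g, hg⟩ := ht
  have : (C t : E → E) = g := by rw [← hg]; rfl
  rw [this]
  exact g.bijective

theorem hLOC : StVEL → StENU → StLOC := by
  intro hVEL hENU V _ _ _ P F y₀ hP hy₀ hsurj hF hker
  -- the finite family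
  obtain ⟨G, hGF, hGf, hGk⟩ := finB F y₀ (LinearMap.ker (fderiv ℝ P y₀ : V →ₗ[ℝ] ℂ))
    (IsNoetherian.noetherian _) (fun v hv => hker v (LinearMap.mem_ker.1 hv))
  obtain ⟨N, e, he⟩ := hGf.fin_embedding
  refine ⟨G, hGF, hGf, ?_⟩
  have heF : ∀ k, Flw {x | P x = 0} (e k) := fun k => hF _ (hGF (he ▸ mem_range_self k))
  have hvel : ∀ k, Continuous (fun y => vel (e k) y) := fun k => (hVEL V P (e k) hP (heF k)).1
  have hvel0 : ∀ k y, P y = 0 → ∀ c : ℂ, fderiv ℝ P y (vel (e k) y c) = 0 :=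
    fun k => (hVEL V P (e k) hP (heF k)).2
  obtain ⟨n, hn⟩ := rinv (fderiv ℝ P y₀) hsurj
  obtain ⟨A, hA⟩ : ∃ A : V → ((Fin N → ℂ) × ℂ) →L[ℝ] V, A = fun y =>
      (∑ k, (vel (e k) y).comp ((ContinuousLinearMap.proj k).comp
        (ContinuousLinearMap.fst ℝ (Fin N → ℂ) ℂ))) +
      n.comp (ContinuousLinearMap.snd ℝ (Fin N → ℂ) ℂ) := ⟨_, rfl⟩
  have hAc : Continuous A := by
    rw [hA]
    refine Continuous.add ?_ continuous_const
    refine continuous_finsetSum _ (fun k _ => ?_)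
    exact (hvel k).clm_comp continuous_const
  have hAv : ∀ y c s, A y (c, s) = (∑ k, vel (e k) y (c k)) + n s := by
    intro y c s
    rw [hA]
    simp
  have hAs : Function.Surjective (A y₀) := by
    intro v
    have h1 : fderiv ℝ P y₀ (v - n (fderiv ℝ P y₀ v)) = 0 := by
      rw [map_sub, hn, sub_self]
    have h2 : v - n (fderiv ℝ P y₀ v) ∈ spn G y₀ := hGk (LinearMap.mem_ker.2 h1)
    rw [← he] at h2
    obtain ⟨c, hc⟩ := (hENU V N e y₀ _).1 h2
    refine ⟨(c, fderiv ℝ P y₀ v), ?_⟩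
    rw [hAv, ← hc]
    abel
  obtain ⟨B, hB⟩ := rinv (A y₀) hAs
  have hP1 : Continuous (fderiv ℝ P) := hP.continuous_fderiv (by simp)
  have ev1 : ∀ᶠ y in 𝓝 y₀, Function.Bijective ((A y).comp B) := by
    refine near_inv (fun y => (A y).comp B) y₀
      (hAc.clm_comp continuous_const).continuousAt ?_
    ext v
    exact hB v
  have ev2 : ∀ᶠ y in 𝓝 y₀, Function.Bijective ((fderiv ℝ P y).comp n) := by
    refine near_inv (fun y => (fderiv ℝ P y).comp n) y₀
      (hP1.clm_comp continuous_const).continuousAt ?_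
    ext v
    exact hn v
  filter_upwards [ev1, ev2] with y h1 h2 hy v hv
  obtain ⟨w, hw⟩ := h1.2 v
  have hw' : A y (B w) = v := hw
  obtain ⟨c, s, hcs⟩ : ∃ c s, B w = (c, s) := ⟨(B w).1, (B w).2, rfl⟩
  rw [hcs, hAv] at hw'
  have h3 : fderiv ℝ P y (n s) = 0 := by
    have h4 := congrArg (fderiv ℝ P y) hw'
    rw [map_add, map_sum, hv, Finset.sum_eq_zero (fun k _ => hvel0 k y hy (c k)), zero_add] at h4
    exact h4
  have hs : s = 0 := by
    apply h2.1
    rw [map_zero]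
    exact h3
  rw [hs, map_zero, add_zero] at hw'
  rw [← he]
  exact (hENU V N e y v).2 ⟨c, hw'.symm⟩

end Pool.Agent.Helper34.FX
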