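import Pool.Agent.Helper84.FX.StT

set_option autoImplicit false

namespace Pool.Agent.Helper34.FX

open Set
open Pool.Agent.Helper84.FX

theorem hPRD : StPRD := by
  intro E F G _ _ _ X Y Z f hf
  obtain ⟨hM, hL⟩ := hf
  refine ⟨⟨?_, ?_⟩, ?_⟩
  · exact (hM.1.comp continuousOn_fst (fun q hq => hq.1)).prodMk continuousOn_snd
  · intro q hq
    exact ⟨hM.2 hq.1, hq.2⟩
  · intro n a b ha hb hab
    obtain ⟨c, H, hc, hca, hH, hH0, hH1, hHs⟩ := hL n (fun u => (a u).1) (fun u => (b u).1)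
      ⟨continuous_fst.comp_continuousOn ha.1, fun u hu => (ha.2 hu).1⟩
      ⟨continuous_fst.comp_continuousOn hb.1, fun u hu => (hb.2 hu).1⟩
      (fun u hu => congrArg Prod.fst (hab u hu))
    refine ⟨fun u => (c u, (b u).2), fun q => (H q, (b q.2).2), ⟨?_, ?_⟩, ?_, ⟨?_, ?_⟩, ?_, ?_, ?_⟩
    · exact hc.1.prodMk (continuous_snd.comp_continuousOn hb.1)
    · intro u hu
      exact ⟨hc.2 hu, (hb.2 hu).2⟩
    · intro u hu
      have h2 : (b u).2 = (a u).2 := by rw [hab u hu]
      exact Prod.ext (hca u hu) h2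
    · refine hH.1.prodMk ?_
      exact (continuous_snd.comp_continuousOn hb.1).comp continuousOn_snd (fun q hq => hq.2)
    · intro q hq
      exact ⟨hH.2 hq, (hb.2 hq.2).2⟩
    · intro u hu
      exact Prod.ext (hH0 u hu) rfl
    · intro u hu
      exact Prod.ext (hH1 u hu) rfl
    · intro s hs u hu
      exact Prod.ext (hHs s hs u hu) rfl

end Pool.Agent.Helper34.FX
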