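import Pool.Agent.Helper84.FX.StX

set_option autoImplicit false

namespace Pool.Agent.Helper34.FX

open Set
open Pool.Agent.Helper84.FX Pool.Agent.Helper72.FX

noncomputable section

/-- coordinate projections, over the reals -/
private def pj (i : Fin 10) : (Fin 10 → ℂ) →L[ℝ] ℂ := ContinuousLinearMap.proj i

private lemma pj_apply (i : Fin 10) (v : Fin 10 → ℂ) : pj i v = v i := rfl

private lemma hp (i : Fin 10) (x : Fin 10 → ℂ) :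
    HasFDerivAt (𝕜 := ℝ) (fun z : Fin 10 → ℂ => z i) (pj i) x :=
  hasFDerivAt_apply i x

private lemma hn (x : Fin 10 → ℂ) : ∃ L : (Fin 10 → ℂ) →L[ℝ] ℂ,
    HasFDerivAt (𝕜 := ℝ) nz L x ∧
      ∀ v, L v = 2 * v 1 + (x 1 ^ 2 * v 2 + x 2 * (2 * x 1 * v 1)) - 2 * x 0 * v 0 := by
  have h1 := (((hp 1 x).const_mul 2).add ((hp 2 x).mul ((hp 1 x).pow 2))).sub ((hp 0 x).pow 2)
  refine ⟨_, h1, fun v => ?_⟩
  simp [pj_apply]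
  ring

private lemma sol (x : Fin 10 → ℂ) (h : x 0 ≠ 0 ∨ 1 + x 2 * x 1 ≠ 0) (c : ℂ) :
    ∃ p q : ℂ, 2 * q + (x 1 ^ 2 * 0 + x 2 * (2 * x 1 * q)) - 2 * x 0 * p = c := by
  rcases h with h | h
  · refine ⟨-c / (2 * x 0), 0, ?_⟩
    field_simp
    ring
  · refine ⟨0, c / (2 * (1 + x 2 * x 1)), ?_⟩
    field_simp
    ring

private lemma op {U : Set ℂ} (hU : IsOpen U) : IsOpen {z : Fin 10 → ℂ | z 2 ∈ U} :=
  hU.preimage (continuous_apply 2)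

private lemma nzs : ContDiff ℝ 1 nz := by
  unfold nz nu
  fun_prop

private lemma dir (hG : StGR) (U : Set ℂ) (h0 : (0 : ℂ) ∉ U) (x : Fin 10 → ℂ) (hx : x 2 ∈ U)
    (hnu : nz x = 0) : x 0 ≠ 0 ∨ 1 + x 2 * x 1 ≠ 0 := by
  have hx2 : x 2 ≠ 0 := fun h => h0 (h ▸ hx)
  by_contra hcon
  push Not at hcon
  exact hG.1 (x 0) (x 1) (x 2) hx2 hcon.1 hcon.2 hnu

private lemma t1 (hT : StTMC) (hG : StGR) (U : Set ℂ) (hU : IsOpen U) (h0 : (0 : ℂ) ∉ U) :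
    Tame (N1G U) (fun z => z 5) := by
  have hset : N1G U = {z : Fin 10 → ℂ | z ∈ {z : Fin 10 → ℂ | z 2 ∈ U} ∧
      (z 4, z 7, z 8, z 9, nz z - z 5 * z 6, z 5 - z 3) = (0 : ℂ × ℂ × ℂ × ℂ × ℂ × ℂ)} := by
    ext z
    simp only [N1G, N1, mem_ofPred_eq, Prod.mk_eq_zero, sub_eq_zero]
    tauto
  rw [hset]
  refine hT (Fin 10 → ℂ) ℂ (ℂ × ℂ × ℂ × ℂ × ℂ × ℂ) {z : Fin 10 → ℂ | z 2 ∈ U}
    (fun z => (z 4, z 7, z 8, z 9, nz z - z 5 * z 6, z 5 - z 3)) (fun z => z 5) (op hU) ?_ ?_ ?_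
  · have := nzs
    exact (by fun_prop : ContDiff ℝ 1 (fun z : Fin 10 → ℂ =>
      (z 4, z 7, z 8, z 9, nz z - z 5 * z 6, z 5 - z 3))).contDiffOn
  · exact (by fun_prop : ContDiff ℝ 1 (fun z : Fin 10 → ℂ => z 5)).contDiffOn
  · intro x hx he hg
    have hg' : x 5 = 0 := hg
    simp only [Prod.mk_eq_zero, sub_eq_zero] at he
    obtain ⟨-, -, -, -, hnu, -⟩ := he
    rw [hg', zero_mul] at hnu
    have hdir := dir hG U h0 x hx hnu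
    obtain ⟨L, hL, hLv⟩ := hn x
    have hd : HasFDerivAt (𝕜 := ℝ) (fun y : Fin 10 → ℂ =>
        ((y 4, y 7, y 8, y 9, nz y - y 5 * y 6, y 5 - y 3), y 5)) _ x :=
      (((hp 4 x).prodMk ((hp 7 x).prodMk ((hp 8 x).prodMk ((hp 9 x).prodMk
      ((hL.sub ((hp 5 x).mul (hp 6 x))).prodMk ((hp 5 x).sub (hp 3 x))))))).prodMk (hp 5 x))
    rw [hd.fderiv]
    rintro ⟨⟨w1, w2, w3, w4, w5, w6⟩, w7⟩
    obtain ⟨p, q, hpq⟩ := sol x hdir (w5 + x 6 * w7)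
    refine ⟨![p, q, 0, w7 - w6, w1, w7, 0, w2, w3, w4], ?_⟩
    have hL5 : L ![p, q, 0, w7 - w6, w1, w7, 0, w2, w3, w4] = w5 + x 6 * w7 := by
      rw [hLv]
      simpa using hpq
    simp [pj_apply, hL5, hg']

private lemma t2 (hT : StTMC) (hG : StGR) (U : Set ℂ) (hU : IsOpen U) (h0 : (0 : ℂ) ∉ U) :
    Tame (N2G U) (fun z => z 5) := by
  have hset : N2G U = {z : Fin 10 → ℂ | z ∈ {z : Fin 10 → ℂ | z 2 ∈ U} ∧
      (z 6, z 7, z 8, z 9, nz z - z 3 * z 4, z 5 - z 3) = (0 : ℂ × ℂ × ℂ × ℂ × ℂ × ℂ)} := by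
    ext z
    simp only [N2G, N2, mem_ofPred_eq, Prod.mk_eq_zero, sub_eq_zero]
    tauto
  rw [hset]
  refine hT (Fin 10 → ℂ) ℂ (ℂ × ℂ × ℂ × ℂ × ℂ × ℂ) {z : Fin 10 → ℂ | z 2 ∈ U}
    (fun z => (z 6, z 7, z 8, z 9, nz z - z 3 * z 4, z 5 - z 3)) (fun z => z 5) (op hU) ?_ ?_ ?_
  · have := nzs
    exact (by fun_prop : ContDiff ℝ 1 (fun z : Fin 10 → ℂ =>
      (z 6, z 7, z 8, z 9, nz z - z 3 * z 4, z 5 - z 3))).contDiffOn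
  · exact (by fun_prop : ContDiff ℝ 1 (fun z : Fin 10 → ℂ => z 5)).contDiffOn
  · intro x hx he hg
    have hg' : x 5 = 0 := hg
    simp only [Prod.mk_eq_zero, sub_eq_zero] at he
    obtain ⟨-, -, -, -, hnu, h3⟩ := he
    have h3' : x 3 = 0 := by rw [← h3, hg']
    rw [h3', zero_mul] at hnu
    have hdir := dir hG U h0 x hx hnu
    obtain ⟨L, hL, hLv⟩ := hn x
    have hd : HasFDerivAt (𝕜 := ℝ) (fun y : Fin 10 → ℂ =>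
        ((y 6, y 7, y 8, y 9, nz y - y 3 * y 4, y 5 - y 3), y 5)) _ x :=
      (((hp 6 x).prodMk ((hp 7 x).prodMk ((hp 8 x).prodMk ((hp 9 x).prodMk
      ((hL.sub ((hp 3 x).mul (hp 4 x))).prodMk ((hp 5 x).sub (hp 3 x))))))).prodMk (hp 5 x))
    rw [hd.fderiv]
    rintro ⟨⟨w1, w2, w3, w4, w5, w6⟩, w7⟩
    obtain ⟨p, q, hpq⟩ := sol x hdir (w5 + x 4 * (w7 - w6))
    refine ⟨![p, q, 0, w7 - w6, 0, w7, w1, w2, w3, w4], ?_⟩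
    have hL5 : L ![p, q, 0, w7 - w6, 0, w7, w1, w2, w3, w4] = w5 + x 4 * (w7 - w6) := by
      rw [hLv]
      simpa using hpq
    simp [pj_apply, hL5, h3']

private lemma t3 (hT : StTMC) (hG : StGR) (U : Set ℂ) (hU : IsOpen U) (h0 : (0 : ℂ) ∉ U) :
    Tame (N1G U ∩ N2G U) (fun z => z 5) := by
  have hset : N1G U ∩ N2G U = {z : Fin 10 → ℂ | z ∈ {z : Fin 10 → ℂ | z 2 ∈ U} ∧
      (z 4, z 6, z 7, z 8, z 9, nz z, z 5 - z 3) = (0 : ℂ × ℂ × ℂ × ℂ × ℂ × ℂ × ℂ)} := by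
    ext z
    simp only [N1G, N2G, N1, N2, mem_inter_iff, mem_ofPred_eq, Prod.mk_eq_zero, sub_eq_zero]
    constructor
    · rintro ⟨⟨⟨a1, a2, a3, a4, a5, a6⟩, a7⟩, ⟨b1, b2, b3, b4, b5, b6⟩, b7⟩
      refine ⟨a1, a2, b2, a3, a4, a5, ?_, a7⟩
      rw [a6, b2, mul_zero]
    · rintro ⟨a1, a2, b2, a3, a4, a5, a6, a7⟩
      refine ⟨⟨⟨a1, a2, a3, a4, a5, ?_⟩, a7⟩, ⟨a1, b2, a3, a4, a5, ?_⟩, a7⟩
      · rw [a6, b2, mul_zero]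
      · rw [a6, a2, mul_zero]
  rw [hset]
  refine hT (Fin 10 → ℂ) ℂ (ℂ × ℂ × ℂ × ℂ × ℂ × ℂ × ℂ) {z : Fin 10 → ℂ | z 2 ∈ U}
    (fun z => (z 4, z 6, z 7, z 8, z 9, nz z, z 5 - z 3)) (fun z => z 5) (op hU) ?_ ?_ ?_
  · have := nzs
    exact (by fun_prop : ContDiff ℝ 1 (fun z : Fin 10 → ℂ =>
      (z 4, z 6, z 7, z 8, z 9, nz z, z 5 - z 3))).contDiffOn
  · exact (by fun_prop : ContDiff ℝ 1 (fun z : Fin 10 → ℂ => z 5)).contDiffOn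
  · intro x hx he hg
    simp only [Prod.mk_eq_zero, sub_eq_zero] at he
    obtain ⟨-, -, -, -, -, hnu, -⟩ := he
    have hdir := dir hG U h0 x hx hnu
    obtain ⟨L, hL, hLv⟩ := hn x
    have hd : HasFDerivAt (𝕜 := ℝ) (fun y : Fin 10 → ℂ =>
        ((y 4, y 6, y 7, y 8, y 9, nz y, y 5 - y 3), y 5)) _ x :=
      (((hp 4 x).prodMk ((hp 6 x).prodMk ((hp 7 x).prodMk ((hp 8 x).prodMk ((hp 9 x).prodMk
      (hL.prodMk ((hp 5 x).sub (hp 3 x)))))))).prodMk (hp 5 x))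
    rw [hd.fderiv]
    rintro ⟨⟨w1, w2, w3, w4, w5, w6, w7⟩, w8⟩
    obtain ⟨p, q, hpq⟩ := sol x hdir w6
    refine ⟨![p, q, 0, w8 - w7, w1, w8, w2, w3, w4, w5], ?_⟩
    have hL5 : L ![p, q, 0, w8 - w7, w1, w8, w2, w3, w4, w5] = w6 := by
      rw [hLv]
      simpa using hpq
    simp [pj_apply, hL5]

theorem hTNG : StTMC → StGR → StTNG := fun hT hG U hU h0 =>
  ⟨t1 hT hG U hU h0, t2 hT hG U hU h0, t3 hT hG U hU h0⟩

end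

end Pool.Agent.Helper34.FX
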